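import Pool.Agent.K3h27.OA.All
import Pool.Agent.K3h27.OP.Fin2
import Pool.Agent.TH865.OG.Low4

/-!
# MP_466853_co: Turán's bound for ordered 3-graphs with a local condition on four vertices
-/

set_option autoImplicit false
set_option linter.unusedVariables false
open Finset

namespace Pool.Agent.Results.MP_466853_co.OrderedLocalConditions

/-- no four vertices span four edges -/
def K43Free {V : Type} [LinearOrder V] (H : Finset (Finset V)) : Prop :=
  ∀ a b c d : V, a < b → b < c → c < d → ¬ (({a, b, c} : Finset V) ∈ H ∧ ({a, b, d} : Finset V) ∈ H ∧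
    ({a, c, d} : Finset V) ∈ H ∧ ({b, c, d} : Finset V) ∈ H)

/-- for `a < b < c < d`: if `abc` is an edge and `abd` is not, then `acd` and `bcd` are edges, and if
`bcd` is an edge and `acd` is not, then `abc` and `abd` are edges -/
def Local {V : Type} [LinearOrder V] (H : Finset (Finset V)) : Prop :=
  ∀ a b c d : V, a < b → b < c → c < d →
    (({a, b, c} : Finset V) ∈ H → ({a, b, d} : Finset V) ∉ H →
      ({a, c, d} : Finset V) ∈ H ∧ ({b, c, d} : Finset V) ∈ H) ∧
    (({b, c, d} : Finset V) ∈ H → ({a, c, d} : Finset V) ∉ H →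
      ({a, b, c} : Finset V) ∈ H ∧ ({a, b, d} : Finset V) ∈ H)

open Pool.Agent.K3h27 Pool.Agent.K3h27.OP

theorem ok_of {V : Type} [Fintype V] [LinearOrder V] {H : Finset (Finset V)} (hf : K43Free H)
    (hl : Local H) (T : Finset V) (hT : T ∈ P V 4) : OA.ok (C4 H T) = true := by
  obtain ⟨κ, rfl⟩ := exists_img (mem_P.1 hT)
  rw [C4_img]
  unfold cod4
  have l1 : κ 0 < κ 1 := κ.lt_iff_lt.2 (by decide)
  have l2 : κ 1 < κ 2 := κ.lt_iff_lt.2 (by decide)
  have l3 : κ 2 < κ 3 := κ.lt_iff_lt.2 (by decide)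
  have h1 := hf _ _ _ _ l1 l2 l3
  have h2 := hl _ _ _ _ l1 l2 l3
  unfold e
  by_cases e1 : ({κ 0, κ 1, κ 2} : Finset V) ∈ H <;> by_cases e2 : ({κ 0, κ 1, κ 3} : Finset V) ∈ H <;>
    by_cases e3 : ({κ 0, κ 2, κ 3} : Finset V) ∈ H <;> by_cases e4 : ({κ 1, κ 2, κ 3} : Finset V) ∈ H <;>
    simp only [e1, e2, e3, e4, if_true, if_false] <;>
    first
      | decide +kernel
      | (exfalso; tauto)

theorem part (n : ℕ) : ∃ H : Finset (Finset (Fin n)), (∀ A ∈ H, A.card = 3) ∧ K43Free H ∧ Local H ∧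
    5 / 54 * (n : ℝ) ^ 3 - 2 * (n : ℝ) ^ 2 ≤ (H.card : ℝ) := by
  have hE : ∀ i j l m : Fin 3, i ≤ j → j ≤ l → l ≤ m →
      ((TH865.OG.Low4.E i j l = true → ¬ TH865.OG.Low4.E i j m = true →
        TH865.OG.Low4.E i l m = true ∧ TH865.OG.Low4.E j l m = true) ∧
      (TH865.OG.Low4.E j l m = true → ¬ TH865.OG.Low4.E i l m = true →
        TH865.OG.Low4.E i j l = true ∧ TH865.OG.Low4.E i j m = true)) := by decide
  have mem : ∀ a b c : Fin n, a < b → b < c → (({a, b, c} : Finset (Fin n)) ∈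
      TH865.OG.Low4.H (TH865.OG.Low4.p : Fin n → Fin 3) ↔
      TH865.OG.Low4.E (TH865.OG.Low4.p a) (TH865.OG.Low4.p b) (TH865.OG.Low4.p c) = true) :=
    fun a b c hab hbc => TH865.OG.Low4.mem_H hab.ne (hab.trans hbc).ne hbc.ne
  refine ⟨TH865.OG.Low4.H TH865.OG.Low4.p, fun A hA => TH865.OG.Low4.H_card hA, ?_, ?_,
    TH865.OG.Low4.H_large TH865.OG.Low4.bal_p⟩
  · intro a b c d hab hbc hcd h
    rw [mem a b c hab hbc, mem a b d hab (hbc.trans hcd), mem a c d (hab.trans hbc) hcd,
      mem b c d hbc hcd] at h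
    exact TH865.OG.Low4.E_four _ _ _ _ h
  · intro a b c d hab hbc hcd
    rw [mem a b c hab hbc, mem a b d hab (hbc.trans hcd), mem a c d (hab.trans hbc) hcd,
      mem b c d hbc hcd]
    exact hE _ _ _ _ (TH865.OG.Low4.p_mono hab) (TH865.OG.Low4.p_mono hbc)
      (TH865.OG.Low4.p_mono hcd)

/-- **Turán's bound for ordered 3-graphs with a local condition.** Let `H` be a 3-graph on a linearly
ordered set of `n` vertices, without four vertices spanning four edges, such that for all vertices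
`a < b < c < d`: if `abc` is an edge and `abd` is not, then `acd` and `bcd` are edges, and if `bcd`
is an edge and `acd` is not, then `abc` and `abd` are edges. Then `H` has at most `5 n ^ 3 / 54`
edges, Turán's conjectured bound; Turán's construction has these properties, so the bound is
attained up to `2 n ^ 2`. -/
theorem result :
    (∀ (V : Type) [Fintype V] [LinearOrder V] (H : Finset (Finset V)), (∀ A ∈ H, A.card = 3) →
      K43Free H → Local H → 54 * H.card ≤ 5 * Fintype.card V ^ 3) ∧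
    (∀ n : ℕ, ∃ H : Finset (Finset (Fin n)), (∀ A ∈ H, A.card = 3) ∧ K43Free H ∧ Local H ∧
      5 / 54 * (n : ℝ) ^ 3 - 2 * (n : ℝ) ^ 2 ≤ (H.card : ℝ)) :=
  ⟨fun V _ _ H h3 hf hl => exact_pat (ok := OA.ok) (by decide +kernel) (by decide +kernel)
    (by decide +kernel) (by decide +kernel) OA.approx V H h3 (ok_of hf hl), part⟩

end Pool.Agent.Results.MP_466853_co.OrderedLocalConditions
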