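import Pool.Agent.K3h63.QC.All

/-!
# Turán's bound for 3-graphs with a partition into three classes and a missing kind of quadruples

Let `H` be a `K_4^3`-free 3-graph on `n` vertices whose vertex set is divided into three classes. We
prove that `H` has at most `(5/54 + o(1)) n^3` edges, as conjectured by Turán for all `K_4^3`-free
3-graphs, if one of the following five kinds of four-element sets of vertices does not occur:

* sets meeting all three classes and containing exactly two edges (classes of size at least `n / 7`);
* sets with two vertices in each of two classes containing exactly three edges (classes of size at
  least `n / 6`; here the bound is `5/54 n^3` without an error term);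
* sets with at least three vertices in a common class containing exactly two edges (classes of any
  sizes);
* sets with exactly three vertices in a common class containing exactly two edges, and sets of four
  vertices of one class containing exactly three edges (classes of any sizes);
* sets consisting of three vertices of one class and a fourth vertex of another class which is in
  exactly two of the edges inside the set (classes of size at least `n / 50`); this means that the
  link graph of every vertex, restricted to each of the two other classes, is a disjoint union of
  complete graphs.

Nothing is assumed on the other quadruples or on the kinds of the edges. In general, `54 |H| / n^3` is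
at most `5 + 50000 N / n^4 + 50000 / n`, where `N` is the number of quadruples of the kind. So in a
3-graph of density larger than `5/9 + ε` without `K_4^3`, each of these kinds of quadruples has
positive density, for every such partition of the vertex set into three classes.

Turán's construction, with its own three classes, has no quadruples of any of the five kinds, so the
constant is best possible in all five cases.

The proof consists of five flag algebra computations of order five for 3-graphs with three coloured
classes, with multipliers for the sizes of the classes, whose value is exactly `5/9`; the exact
certificates are checked by the kernel.
-/

set_option autoImplicit false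
open Finset

namespace Pool.Agent.Results.MP_466853_co.QuadrupleClasses

open Pool.Agent.K3h63.QC

variable {n : ℕ}

/-- The 3-graph `H` has no four vertices spanning all four triples. -/
def K43Free (H : Finset (Finset (Fin n))) : Prop :=
  ∀ S : Finset (Fin n), S.card = 4 → ∃ T ⊆ S, T.card = 3 ∧ T ∉ H

/-- Let `H` be a `K_4^3`-free 3-graph on `n` vertices and `c` a partition of its vertex set into three
classes (numbered 0, 1, 2). Let `N` be the number of four-element sets of vertices of one of the five
kinds `KindA`, ..., `KindE`. Then `54 |H| n ≤ 5 n^4 + 50000 (N + n^3)`, if every class has at least
`n / 7` vertices for the first kind, at least `n / 6` vertices for the second kind and at least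
`n / 50` vertices for the fifth kind; for the third and the fourth kind the classes may have any
sizes. For the second kind the term `n^3` is not needed. -/
theorem result (n : ℕ) (H : Finset (Finset (Fin n))) (h3 : ∀ e ∈ H, e.card = 3) (hK : K43Free H)
    (c : Fin n → Fin 3) :
    ((∀ l, n ≤ 7 * classSize c l) →
      54 * H.card * n ≤ 5 * n ^ 4 + 50000 * ((quads (KindA H c)).card + n ^ 3)) ∧
    ((∀ l, n ≤ 6 * classSize c l) →
      54 * H.card * n ≤ 5 * n ^ 4 + 50000 * (quads (KindB H c)).card) ∧
    54 * H.card * n ≤ 5 * n ^ 4 + 50000 * ((quads (KindC H c)).card + n ^ 3) ∧
    54 * H.card * n ≤ 5 * n ^ 4 + 50000 * ((quads (KindD H c)).card + n ^ 3) ∧
    ((∀ l, n ≤ 50 * classSize c l) →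
      54 * H.card * n ≤ 5 * n ^ 4 + 50000 * ((quads (KindE H c)).card + n ^ 3)) :=
  ⟨boundA h3 hK c, boundB h3 hK c, boundC h3 hK c, boundD h3 hK c, boundE h3 hK c⟩

end Pool.Agent.Results.MP_466853_co.QuadrupleClasses
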