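import Pool.Agent.K3h28.TU.Rich

/-!
# Codegrees and rich corners in near-extremal `K_r^3`-free 3-graphs

It is not known what the extremal `K_4^3`-free 3-graphs are (Turán's conjecture), and there are many candidates. The
following properties are proved here for all `K_r^3`-free 3-graphs `H`, `r ≥ 4`, with nearly the maximum number
`ex r n` of edges.

* All sets `D` of pairs of vertices meet many edges of `H`: `(|D| (n - 2))² ≤ 12 n³ (ex r n - |H| + m)`, where `m` is the
  number of edges of `H` which contain a pair in `D`.
* At most `η n²` pairs have a codegree less than `(η / 96) n`, if `|H| ≥ ex r n - (η² / 96) n³`. So almost all pairs have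
  linear codegrees, with a linear dependence of the bounds.
* For almost all triples `T` that are not edges, at least two of the three vertices `x` of `T` are rich corners: there are
  at least `τ n` vertices `w` such that `x y w` and `x z w` are edges for the other two vertices `y`, `z` of `T`.

Proof. Divide the vertices at random into classes `A`, `B`, `C` of relative sizes `(1 - γ)/3, 2 (1 - γ)/3, γ`, delete the
edges with one vertex in `A` and two in `C`, and add triples with one vertex in each class: the triples `a b z` with
`ab ∈ D` (after the deletion of the edges which meet `D`), respectively the non-edges with poor corners `a` and `b`. In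
the second case a few edges and non-edges are removed before, by the triangle removal lemma, for the tripartite graphs of
all vertices `x` with edges `yw`, `zw` for the edges `xyw`, `xzw` of `H`, and `yz` for the non-edges `x y z` with
poor corners `x`, `y`. Then no new edge is in a `K_4^3`. The gain is linear in `γ` and the loss is quadratic.
-/

set_option autoImplicit false
open Finset

namespace Pool.Agent.Results.MP_466853_co.RichCorners

/-- `H` is a 3-graph on `Fin n` without `r` vertices all of whose triples are edges. -/
def Free (r : ℕ) {n : ℕ} (H : Finset (Finset (Fin n))) : Prop :=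
  (∀ e ∈ H, e.card = 3) ∧ ∀ S : Finset (Fin n), S.card = r → ∃ e ⊆ S, e.card = 3 ∧ e ∉ H

/-- The maximum number of edges of a `K_r^3`-free 3-graph on `n` vertices. -/
noncomputable def ex (r n : ℕ) : ℕ :=
  sSup {m : ℕ | ∃ H : Finset (Finset (Fin n)), Free r H ∧ H.card = m}

/-- the set of all pairs of vertices -/
def pairs (n : ℕ) : Finset (Finset (Fin n)) := (univ : Finset (Fin n)).powersetCard 2

open Classical in
/-- the number of edges of `H` which contain a pair in `D` -/
noncomputable def meet {n : ℕ} (H D : Finset (Finset (Fin n))) : ℕ := (H.filter fun e => ∃ p ∈ D, p ⊆ e).card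

/-- the codegree of `p`, the number of edges of `H` which contain `p` -/
def codegree {n : ℕ} (H : Finset (Finset (Fin n))) (p : Finset (Fin n)) : ℕ := (H.filter fun e => p ⊆ e).card

open Classical in
/-- The number of pairs of codegree less than `t`. -/
noncomputable def smallPairs {n : ℕ} (H : Finset (Finset (Fin n))) (t : ℝ) : ℕ :=
  ((pairs n).filter fun p => (codegree H p : ℝ) < t).card

open Classical in
/-- `x` is a rich corner of `T`: at least `t` vertices `w` form edges `x y w` with all other vertices `y` of `T`. -/
def Rich {n : ℕ} (H : Finset (Finset (Fin n))) (t : ℝ) (T : Finset (Fin n)) (x : Fin n) : Prop :=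
  t ≤ (((univ : Finset (Fin n)).filter fun w => ∀ y ∈ T, y ≠ x → ({x, y, w} : Finset (Fin n)) ∈ H).card : ℝ)

open Classical in
/-- The number of triples that are not edges of `H` and have at most one rich corner. -/
noncomputable def poorTriples {n : ℕ} (H : Finset (Finset (Fin n))) (t : ℝ) : ℕ :=
  ((univ : Finset (Finset (Fin n))).filter fun T => T.card = 3 ∧ T ∉ H ∧
    (T.filter fun x => Rich H t T x).card ≤ 1).card

/-- **Main result.** (1) Sets of pairs meet many edges. (2) Almost all pairs have large codegrees. (3) Almost all
triples that are not edges have two rich corners. -/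
theorem result :
    (∀ r n : ℕ, 4 ≤ r → ∀ H : Finset (Finset (Fin n)), Free r H → ∀ D ⊆ pairs n,
      ((D.card : ℝ) * ((n : ℝ) - 2)) ^ 2 ≤ 12 * (n : ℝ) ^ 3 * ((ex r n : ℝ) - H.card + meet H D)) ∧
    (∀ r n : ℕ, 4 ≤ r → 4 ≤ n → ∀ H : Finset (Finset (Fin n)), Free r H → ∀ η : ℝ, 0 < η →
      (ex r n : ℝ) ≤ H.card + η ^ 2 / 96 * (n : ℝ) ^ 3 →
        (smallPairs H (η / 96 * n) : ℝ) ≤ η * (n : ℝ) ^ 2) ∧
    (∀ r : ℕ, 4 ≤ r → ∀ η : ℝ, 0 < η → ∃ τ ε : ℝ, 0 < τ ∧ 0 < ε ∧ ∀ n : ℕ,
      ∀ H : Finset (Finset (Fin n)), Free r H → (ex r n : ℝ) ≤ H.card + ε * (n : ℝ) ^ 3 →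
        (poorTriples H (τ * n) : ℝ) ≤ η * (n : ℝ) ^ 3) := by
  refine ⟨?_, ?_, ?_⟩
  · intro r n hr H hH D hD
    exact Pool.Agent.K3h28.TU.cover hr hH hD
  · intro r n hr hn H hH η hη hex
    refine le_trans (le_of_eq ?_) (Pool.Agent.K3h28.TU.small_codegrees hr hn hH hη hex)
    unfold smallPairs codegree
    congr!
  · intro r hr η hη
    exact Pool.Agent.K3h28.TU.rich_main hr hη

end Pool.Agent.Results.MP_466853_co.RichCorners
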