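import Pool.Agent.K3h28.TU.Num

/-!
# Near-extremal `K_r^3`-free 3-graphs have one dominating tight component

Two pairs of vertices are tightly connected in a 3-graph `H` if there is a sequence of pairs from one to the other
in which consecutive pairs are in a common edge. It is not known what the extremal `K_4^3`-free 3-graphs are (Turán's
conjecture), and there are many candidates. It is proved here, for all `r ≥ 4`, that in every `K_r^3`-free 3-graph with
nearly the maximum number `ex r n` of edges one tight component contains almost all pairs of vertices, in a robust and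
quantitative form: if the pairs are divided into two classes `P`, `Q` then
`(|P| |Q|)² ≤ 11 n⁵ (ex r n - |H| + m)`, where `m` is the number of edges of `H` which contain pairs from both classes.
So the edges which contain pairs of both classes are at least a constant times `n³`, if `|P|` and `|Q|` are at least
constants times `n²` and `H` is near-extremal. Explicitly, one tight component contains four fifths of all pairs, if
`H` has at least `ex r n - n³/2600` edges. (For `r = 4` the upper bound `0.55756` and the conjectured value `5/9` of the
density differ by `0.0020 < 6/2600`, so that for large `n` the last result is for all 3-graphs at least as dense as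
Turán's construction. This upper bound is from the starting files and is not used here.)

Proof. Delete the `m` edges. Divide the vertices at random into classes `A`, `B`, `C` of relative sizes
`(1 - γ)/3, 2 (1 - γ)/3, γ`; delete the edges with one vertex in `A` and two in `C`; and add all triples `a b z` with
`a ∈ A`, `b ∈ B`, `z ∈ C` for which the pairs `az`, `bz` are in one class and `ab` is in the other class. No new edge is
in a `K_4^3`, so there are at most `ex r n` edges. The gain is linear in `γ` and the loss is quadratic.
-/

set_option autoImplicit false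
open Finset

namespace Pool.Agent.Results.MP_466853_co.TightConnectivity

/-- `H` is a 3-graph on `Fin n` without `r` vertices all of whose triples are edges. -/
def Free (r : ℕ) {n : ℕ} (H : Finset (Finset (Fin n))) : Prop :=
  (∀ e ∈ H, e.card = 3) ∧ ∀ S : Finset (Fin n), S.card = r → ∃ e ⊆ S, e.card = 3 ∧ e ∉ H

/-- The maximum number of edges of a `K_r^3`-free 3-graph on `n` vertices. -/
noncomputable def ex (r n : ℕ) : ℕ :=
  sSup {m : ℕ | ∃ H : Finset (Finset (Fin n)), Free r H ∧ H.card = m}

/-- the set of all pairs of vertices -/
def pairs (n : ℕ) : Finset (Finset (Fin n)) := (univ : Finset (Fin n)).powersetCard 2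

/-- all pairs of vertices of `e` are in `P`, or none -/
def Mono {n : ℕ} (P : Finset (Finset (Fin n))) (e : Finset (Fin n)) : Prop :=
  ∀ p q : Finset (Fin n), p ⊆ e → q ⊆ e → p.card = 2 → q.card = 2 → (p ∈ P ↔ q ∈ P)

open Classical in
/-- the number of edges of `H` which contain a pair in `P` and a pair not in `P` -/
noncomputable def mixed {n : ℕ} (H P : Finset (Finset (Fin n))) : ℕ := (H.filter fun e => ¬ Mono P e).card

/-- `p` and `q` are pairs of vertices in a common edge of `H`. -/
def Adj {n : ℕ} (H : Finset (Finset (Fin n))) (p q : Finset (Fin n)) : Prop :=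
  p.card = 2 ∧ q.card = 2 ∧ ∃ e ∈ H, p ⊆ e ∧ q ⊆ e

open Classical in
/-- the tight component of the pair `p`: all pairs which are tightly connected with `p` -/
noncomputable def component {n : ℕ} (H : Finset (Finset (Fin n))) (p : Finset (Fin n)) :
    Finset (Finset (Fin n)) :=
  (pairs n).filter fun q => Relation.ReflTransGen (Adj H) p q

/-- **Main result.** (1) The expansion inequality, for all `K_r^3`-free 3-graphs, `r ≥ 4`, and all sets `P` of pairs.
(2) In near-extremal `K_r^3`-free 3-graphs one tight component contains almost all pairs. (3) In a `K_r^3`-free 3-graph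
on `n ≥ 100` vertices with at least `ex r n - n³/2600` edges one tight component contains four fifths of all pairs. -/
theorem result :
    (∀ r n : ℕ, 4 ≤ r → ∀ H : Finset (Finset (Fin n)), Free r H → ∀ P ⊆ pairs n,
      ((P.card : ℝ) * (pairs n \ P).card) ^ 2 ≤ 11 * (n : ℝ) ^ 5 * ((ex r n : ℝ) - H.card + mixed H P)) ∧
    (∀ r : ℕ, 4 ≤ r → ∀ δ : ℝ, 0 < δ → ∃ ε : ℝ, 0 < ε ∧ ∀ n : ℕ, 2 ≤ n →
      ∀ H : Finset (Finset (Fin n)), Free r H → (ex r n : ℝ) ≤ H.card + ε * (n : ℝ) ^ 3 →
        ∃ p ∈ pairs n, (1 - δ) * ((pairs n).card : ℝ) ≤ ((component H p).card : ℝ)) ∧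
    (∀ r n : ℕ, 4 ≤ r → 100 ≤ n → ∀ H : Finset (Finset (Fin n)), Free r H →
      (ex r n : ℝ) ≤ H.card + (n : ℝ) ^ 3 / 2600 →
        ∃ p ∈ pairs n, 4 / 5 * ((pairs n).card : ℝ) ≤ ((component H p).card : ℝ)) := by
  refine ⟨?_, ?_, ?_⟩
  · intro r n hr H hH P hP
    exact Pool.Agent.K3h28.TU.expansion hr hH hP
  · intro r hr δ hδ
    exact Pool.Agent.K3h28.TU.tight_main hr hδ
  · intro r n hr hn H hH hc
    exact Pool.Agent.K3h28.TU.four_fifths hr hn hH hc

end Pool.Agent.Results.MP_466853_co.TightConnectivity
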